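import Mathlib

/-!
MP_f85992_lc: the residual-type step for unequal-data-demand PIR codes fails for `q = 2`,
`k = 5`, `(t_1, …, t_5) = (8, 6, 6, 6, 6)`.
-/

set_option autoImplicit false
set_option maxRecDepth 100000

namespace Pool.Agent.Results.MP_f85992_lc.ResidualFails

open Finset Matrix

/-- `I` is a recovery set for the `j`-th data symbol: the restriction to `I` of the codeword
`aᵀ G` determines `a_j`. -/
def IsRecovery {F : Type} [Field F] {k n : ℕ} (G : Matrix (Fin k) (Fin n) F)
    (I : Finset (Fin n)) (j : Fin k) : Prop :=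
  ∀ a b : Fin k → F, (∀ i ∈ I, (a ᵥ* G) i = (b ᵥ* G) i) → a j = b j

/-- `G` is a `(t_1, …, t_k)`-PIR code. -/
def IsPIR {F : Type} [Field F] {k n : ℕ} (G : Matrix (Fin k) (Fin n) F) (t : Fin k → ℕ) : Prop :=
  Function.Injective (fun a : Fin k → F => a ᵥ* G) ∧
    ∀ j, ∃ R : Fin (t j) → Finset (Fin n),
      (∀ r s, r ≠ s → Disjoint (R r) (R s)) ∧ ∀ r, IsRecovery G (R r) j

/-- A linear `(t_1, …, t_k)`-PIR code of length `n` over `F` exists. -/
def HasPIR (F : Type) [Field F] (n : ℕ) {k : ℕ} (t : Fin k → ℕ) : Prop :=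
  ∃ G : Matrix (Fin k) (Fin n) F, IsPIR G t

/-! ### The code of length 15 -/

def G15 : Matrix (Fin 5) (Fin 15) (ZMod 2) :=
  ![![0,1,0,1,0,1,0,1,0,1,0,1,0,1,1], ![1,1,1,1,1,1,1,1,1,1,1,1,1,1,0],
    ![0,0,1,1,0,0,0,0,1,1,1,1,0,0,0], ![0,0,0,0,1,1,0,0,1,1,0,0,1,1,0],
    ![0,0,0,0,0,0,1,1,0,0,1,1,1,1,0]]

theorem rec_of_sum {k n : ℕ} {G : Matrix (Fin k) (Fin n) (ZMod 2)} {I : Finset (Fin n)}
    {j : Fin k} (h : ∀ i, ∑ x ∈ I, G i x = if i = j then 1 else 0) : IsRecovery G I j := by
  have key : ∀ a : Fin k → ZMod 2, a j = ∑ x ∈ I, (a ᵥ* G) x := by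
    intro a
    simp only [vecMul, dotProduct]
    rw [sum_comm]
    simp_rw [← mul_sum, h]
    simp
  intro a b hab
  rw [key a, key b]
  exact sum_congr rfl hab

theorem inj15 : Function.Injective (fun a : Fin 5 → ZMod 2 => a ᵥ* G15) := by
  unfold Function.Injective
  decide +kernel

def R0 : Fin 8 → Finset (Fin 15) := ![{14}, {0,1}, {2,3}, {4,5}, {6,7}, {8,9}, {10,11}, {12,13}]
def R1 : Fin 6 → Finset (Fin 15) := ![{0}, {1,14}, {3,4,9}, {2,7,11}, {5,6,13}, {8,10,12}]
def R2 : Fin 6 → Finset (Fin 15) := ![{0,2}, {1,3}, {4,8}, {5,9}, {6,10}, {7,11}]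
def R3 : Fin 6 → Finset (Fin 15) := ![{0,4}, {1,5}, {2,8}, {3,9}, {6,12}, {7,13}]
def R4 : Fin 6 → Finset (Fin 15) := ![{0,6}, {1,7}, {2,10}, {3,11}, {4,12}, {5,13}]

theorem d0 : ∀ r s : Fin 8, r ≠ s → Disjoint (R0 r) (R0 s) := by decide +kernel
theorem s0 : ∀ r : Fin 8, ∀ i, ∑ x ∈ R0 r, G15 i x = if i = 0 then 1 else 0 := by
  decide +kernel

theorem d1 : ∀ r s : Fin 6, r ≠ s → Disjoint (R1 r) (R1 s) := by decide +kernel
theorem s1 : ∀ r : Fin 6, ∀ i, ∑ x ∈ R1 r, G15 i x = if i = 1 then 1 else 0 := by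
  decide +kernel

theorem d2 : ∀ r s : Fin 6, r ≠ s → Disjoint (R2 r) (R2 s) := by decide +kernel
theorem s2 : ∀ r : Fin 6, ∀ i, ∑ x ∈ R2 r, G15 i x = if i = 2 then 1 else 0 := by
  decide +kernel

theorem d3 : ∀ r s : Fin 6, r ≠ s → Disjoint (R3 r) (R3 s) := by decide +kernel
theorem s3 : ∀ r : Fin 6, ∀ i, ∑ x ∈ R3 r, G15 i x = if i = 3 then 1 else 0 := by
  decide +kernel

theorem d4 : ∀ r s : Fin 6, r ≠ s → Disjoint (R4 r) (R4 s) := by decide +kernel
theorem s4 : ∀ r : Fin 6, ∀ i, ∑ x ∈ R4 r, G15 i x = if i = 4 then 1 else 0 := by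
  decide +kernel

theorem pir15 : IsPIR G15 ![8, 6, 6, 6, 6] := by
  refine ⟨inj15, ?_⟩
  intro j
  fin_cases j
  · exact ⟨R0, d0, fun r => rec_of_sum (s0 r)⟩
  · exact ⟨R1, d1, fun r => rec_of_sum (s1 r)⟩
  · exact ⟨R2, d2, fun r => rec_of_sum (s2 r)⟩
  · exact ⟨R3, d3, fun r => rec_of_sum (s3 r)⟩
  · exact ⟨R4, d4, fun r => rec_of_sum (s4 r)⟩

/-! ### No `(3, 3, 3, 3)`-PIR code of length 7 -/

theorem exists_vec_of_rec {k n : ℕ} {G : Matrix (Fin k) (Fin n) (ZMod 2)} {I : Finset (Fin n)}
    {j : Fin k} (h : IsRecovery G I j) :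
    ∃ s : Fin n → ZMod 2, (∀ i, i ∉ I → s i = 0) ∧ G *ᵥ s = Pi.single j 1 := by
  classical
  let W : Submodule (ZMod 2) (Fin k → ZMod 2) :=
    Submodule.map (Matrix.mulVecLin G)
      { carrier := {s | ∀ i, i ∉ I → s i = 0}
        add_mem' := fun {a b} ha hb i hi => by
          rw [Pi.add_apply, ha i hi, hb i hi, add_zero]
        zero_mem' := fun i _ => rfl
        smul_mem' := fun c a ha i hi => by
          rw [Pi.smul_apply, ha i hi, smul_zero] }
  by_cases hW : (Pi.single j 1 : Fin k → ZMod 2) ∈ W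
  · obtain ⟨s, hs, hs'⟩ := hW
    exact ⟨s, hs, hs'⟩
  · exfalso
    obtain ⟨f, hf, hfW⟩ := Submodule.exists_le_ker_of_notMem hW
    set a : Fin k → ZMod 2 := fun i => f (Pi.single i 1) with ha
    have hfe : ∀ v, f v = ∑ i, a i * v i := by
      intro v
      rw [LinearMap.pi_apply_eq_sum_univ f v]
      refine sum_congr rfl fun i _ => ?_
      rw [smul_eq_mul, mul_comm, ha]
      congr 2
      funext x
      simp [Pi.single_apply, eq_comm]
    have h1 : a j = (0 : Fin k → ZMod 2) j := by
      apply h a 0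
      intro i hi
      rw [Matrix.zero_vecMul]
      have h2 : f (G *ᵥ (Pi.single i 1)) = 0 := by
        apply LinearMap.mem_ker.1
        apply hfW
        refine ⟨Pi.single i 1, ?_, rfl⟩
        intro x hx
        exact Pi.single_eq_of_ne (by rintro rfl; exact hx hi) _
      rw [hfe] at h2
      simpa [vecMul, dotProduct, mulVec_single] using h2
    exact hf h1

/-- Hamming weight. -/
def hw {n : ℕ} (s : Fin n → ZMod 2) : ℕ := (univ.filter fun i => s i ≠ 0).card

theorem zmod2 (z : ZMod 2) (h : z ≠ 0) : z = 1 := by revert z; decide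

theorem sum_eq_hw {n : ℕ} (s : Fin n → ZMod 2) : ∑ i, s i = (hw s : ZMod 2) := by
  unfold hw
  rw [← sum_filter_add_sum_filter_not univ (fun i => s i ≠ 0)]
  rw [sum_congr rfl (fun i hi => zmod2 _ (mem_filter.1 hi).2)]
  rw [sum_eq_zero (s := univ.filter fun i => ¬ (s i ≠ 0)) (fun i hi => by
    have := (mem_filter.1 hi).2
    push Not at this
    exact this)]
  simp

/-- The character `ZMod 2 → {1, -1}`. -/
def chi (z : ZMod 2) : ℤ := if z = 0 then 1 else -1

theorem chi_add_one (z : ZMod 2) : chi (z + 1) = -chi z := by revert z; decide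

theorem sum_chi {n : ℕ} (s : Fin n → ZMod 2) : ∑ i, chi (s i) = n - 2 * (hw s : ℤ) := by
  have h : ∀ i, chi (s i) = 1 - 2 * (if s i ≠ 0 then 1 else 0) := by
    intro i
    unfold chi
    by_cases hi : s i = 0 <;> simp [hi]
  rw [sum_congr rfl fun i _ => h i, sum_sub_distrib, ← mul_sum, Finset.sum_boole]
  simp [hw]

theorem sum_chi_dot {n : ℕ} (s : Fin n → ZMod 2) (hs : s ≠ 0) :
    ∑ x : Fin n → ZMod 2, chi (s ⬝ᵥ x) = 0 := by
  obtain ⟨i0, hi0⟩ := Function.ne_iff.1 hs
  have hi1 : s i0 = 1 := zmod2 _ hi0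
  have h : ∑ x : Fin n → ZMod 2, chi (s ⬝ᵥ x) = - ∑ x : Fin n → ZMod 2, chi (s ⬝ᵥ x) := by
    rw [← sum_neg_distrib]
    rw [← Equiv.sum_comp (Equiv.addRight (Pi.single i0 1 : Fin n → ZMod 2))
      (fun x => chi (s ⬝ᵥ x))]
    refine sum_congr rfl fun x _ => ?_
    rw [Equiv.coe_addRight, dotProduct_add, dotProduct_single, hi1, mul_one, chi_add_one]
  omega

/-- Error patterns of weight at most one. -/
def err {n : ℕ} : Option (Fin n) → (Fin n → ZMod 2)
  | none => 0
  | some i => Pi.single i 1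

theorem err_inj {n : ℕ} : Function.Injective (err (n := n)) := by
  intro s t h
  rcases s with _ | s <;> rcases t with _ | t
  · rfl
  · have := congrFun h t
    simp [err] at this
  · have := congrFun h s
    simp [err] at this
  · have := congrFun h s
    simp only [err, Pi.single_eq_same] at this
    by_cases hst : s = t
    · rw [hst]
    · rw [Pi.single_eq_of_ne hst] at this
      exact absurd this one_ne_zero

theorem hw_err_sub {n : ℕ} (s t : Option (Fin n)) : hw (err s - err t) ≤ 2 := by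
  have hsub : (univ.filter fun i => (err s - err t : Fin n → ZMod 2) i ≠ 0) ⊆
      (s.toFinset ∪ t.toFinset) := by
    intro i hi
    rw [mem_filter] at hi
    by_contra hni
    rw [mem_union, not_or] at hni
    apply hi.2
    have h1 : err s i = 0 := by
      rcases s with _ | s
      · rfl
      · simp at hni
        exact Pi.single_eq_of_ne (by rintro rfl; exact hni.1 rfl) _
    have h2 : err t i = 0 := by
      rcases t with _ | t
      · rfl
      · simp at hni
        exact Pi.single_eq_of_ne (by rintro rfl; exact hni.2 rfl) _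
    rw [Pi.sub_apply, h1, h2, sub_zero]
  refine (card_le_card hsub).trans ((card_union_le _ _).trans ?_)
  have h1 : s.toFinset.card ≤ 1 := by rcases s with _ | s <;> simp
  have h2 : t.toFinset.card ≤ 1 := by rcases t with _ | t <;> simp
  omega

theorem no7 : ¬ HasPIR (ZMod 2) 7 (k := 4) (fun _ => 3) := by
  classical
  rintro ⟨G, -, hG⟩
  -- minimum distance at least three
  have hdist : ∀ a : Fin 4 → ZMod 2, a ≠ 0 → 3 ≤ hw (a ᵥ* G) := by
    intro a ha
    obtain ⟨j, hj⟩ := Function.ne_iff.1 ha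
    obtain ⟨R, hR, hrec⟩ := hG j
    have hex : ∀ r : Fin 3, ∃ i ∈ R r, (a ᵥ* G) i ≠ 0 := by
      intro r
      by_contra hno
      push Not at hno
      apply hj
      apply hrec r a 0
      intro i hi
      rw [Matrix.zero_vecMul, hno i hi]
      rfl
    choose c hc1 hc2 using hex
    have hinj : Function.Injective c := by
      intro r s hrs
      by_contra hne
      exact Finset.disjoint_left.1 (hR r s hne) (hc1 r) (hrs ▸ hc1 s)
    have : (univ.image c).card = 3 := by
      rw [card_image_of_injective _ hinj]; simp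
    rw [← this]
    apply card_le_card
    intro i hi
    obtain ⟨r, -, rfl⟩ := mem_image.1 hi
    exact mem_filter.2 ⟨mem_univ _, hc2 r⟩
  -- perfectness
  let φ : (Fin 4 → ZMod 2) × Option (Fin 7) → (Fin 7 → ZMod 2) := fun p => p.1 ᵥ* G + err p.2
  have hφi : Function.Injective φ := by
    rintro ⟨a, s⟩ ⟨b, t⟩ h
    have h1 : (a - b) ᵥ* G = err t - err s := by
      have h' : a ᵥ* G + err s = b ᵥ* G + err t := h
      rw [Matrix.sub_vecMul]
      rw [sub_eq_sub_iff_add_eq_add, h', add_comm]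
    have h2 : a = b := by
      by_contra hab
      have := hdist (a - b) (sub_ne_zero.2 hab)
      rw [h1] at this
      have := hw_err_sub t s
      omega
    subst h2
    have h3 : err s = err t := by
      have h' : a ᵥ* G + err s = a ᵥ* G + err t := h
      exact add_left_cancel h'
    rw [err_inj h3]
  have hφ : Function.Bijective φ := by
    rw [Fintype.bijective_iff_injective_and_card]
    refine ⟨hφi, ?_⟩
    simp [ZMod.card]
  -- dual weights
  have hdual : ∀ s : Fin 7 → ZMod 2, s ≠ 0 → G *ᵥ s = 0 → hw s = 4 := by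
    intro s hs hGs
    have h1 := sum_chi_dot s hs
    rw [← Equiv.sum_comp (Equiv.ofBijective φ hφ) (fun x => chi (s ⬝ᵥ x))] at h1
    have h2 : ∀ p : (Fin 4 → ZMod 2) × Option (Fin 7),
        chi (s ⬝ᵥ (Equiv.ofBijective φ hφ p)) = chi (s ⬝ᵥ err p.2) := by
      intro p
      have : s ⬝ᵥ (Equiv.ofBijective φ hφ p) = s ⬝ᵥ (p.1 ᵥ* G) + s ⬝ᵥ err p.2 := by
        rw [← dotProduct_add]; rfl
      rw [this, dotProduct_comm s (p.1 ᵥ* G), ← Matrix.dotProduct_mulVec, hGs]
      simp
    rw [sum_congr rfl fun p _ => h2 p, Fintype.sum_prod_type] at h1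
    simp only [sum_const] at h1
    rw [Fintype.sum_option] at h1
    have h3 : ∀ i : Fin 7, chi (s ⬝ᵥ err (some i)) = chi (s i) := by
      intro i; simp [err]
    rw [sum_congr rfl fun i _ => h3 i, sum_chi] at h1
    have h4 : chi (s ⬝ᵥ err none) = 1 := by simp [err, chi]
    rw [h4] at h1
    have h5 : (univ : Finset (Fin 4 → ZMod 2)).card = 16 := by simp [ZMod.card]
    rw [h5] at h1
    simp only [nsmul_eq_mul] at h1
    push_cast at h1
    omega
  -- every unit vector is a sum of two columns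
  have htwo : ∀ j : Fin 4, ∃ s : Fin 7 → ZMod 2, G *ᵥ s = Pi.single j 1 ∧ hw s = 2 := by
    intro j
    have hGj : ∃ R : Fin 3 → Finset (Fin 7),
      (∀ r s, r ≠ s → Disjoint (R r) (R s)) ∧ ∀ r, IsRecovery G (R r) j := hG j
    obtain ⟨R, hR, hrec⟩ := hGj
    choose s hs1 hs2 using fun r => exists_vec_of_rec (hrec r)
    have hne : ∀ r, s r ≠ 0 := by
      intro r h0
      have := hs2 r
      rw [h0, Matrix.mulVec_zero] at this
      have h1 := congrFun this j
      simp at h1
    have hadd : ∀ r r', r ≠ r' → hw (s r) + hw (s r') = 4 := by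
      intro r r' hrr
      have hdisj : Disjoint (univ.filter fun i => s r i ≠ 0) (univ.filter fun i => s r' i ≠ 0) := by
        rw [Finset.disjoint_left]
        intro i h1 h2
        have h1' : i ∈ R r := by
          by_contra hn
          exact (mem_filter.1 h1).2 (hs1 r i hn)
        have h2' : i ∈ R r' := by
          by_contra hn
          exact (mem_filter.1 h2).2 (hs1 r' i hn)
        exact Finset.disjoint_left.1 (hR r r' hrr) h1' h2'
      have hunion : (univ.filter fun i => (s r + s r') i ≠ 0) =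
          (univ.filter fun i => s r i ≠ 0) ∪ (univ.filter fun i => s r' i ≠ 0) := by
        ext i
        simp only [mem_filter, mem_univ, true_and, mem_union, Pi.add_apply]
        by_cases h1 : s r i = 0
        · simp [h1]
        · have h2 : s r' i = 0 := by
            by_contra h2
            exact Finset.disjoint_left.1 hdisj (mem_filter.2 ⟨mem_univ i, h1⟩)
              (mem_filter.2 ⟨mem_univ i, h2⟩)
          simp [h1, h2]
      have hcard : hw (s r + s r') = hw (s r) + hw (s r') := by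
        unfold hw
        rw [hunion, card_union_of_disjoint hdisj]
      rw [← hcard]
      apply hdual
      · intro h0
        rw [h0] at hcard
        have h1 : hw (0 : Fin 7 → ZMod 2) = 0 := by simp [hw]
        have h2 : hw (s r) ≠ 0 := by
          intro h2
          apply hne r
          funext i
          by_contra hi
          have : i ∈ (univ.filter fun i => s r i ≠ 0) := mem_filter.2 ⟨mem_univ _, hi⟩
          rw [Finset.card_eq_zero.1 h2] at this
          simp at this
        omega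
      · rw [Matrix.mulVec_add, hs2, hs2]
        funext i
        have : ∀ z : ZMod 2, z + z = 0 := by decide
        exact this _
    refine ⟨s 0, hs2 0, ?_⟩
    have h1 := hadd 0 1 (by decide)
    have h2 := hadd 0 2 (by decide)
    have h3 := hadd 1 2 (by decide)
    omega
  choose s hs1 hs2 using htwo
  let u : Fin 7 → ZMod 2 := Pi.single 0 1 + ∑ j, G j 0 • s j
  have hGu : G *ᵥ u = 0 := by
    have h1 : G *ᵥ (Pi.single 0 1 : Fin 7 → ZMod 2) = fun j => G j 0 := by
      funext j; simp
    have h2 : G *ᵥ (∑ j, G j 0 • s j) = fun j => G j 0 := by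
      rw [Matrix.mulVec_sum]
      simp only [Matrix.mulVec_smul, hs1]
      funext j
      simp [Finset.sum_apply, Pi.single_apply]
    rw [Matrix.mulVec_add, h1, h2]
    funext i
    have : ∀ z : ZMod 2, z + z = 0 := by decide
    exact this _
  have hpar : ∑ i, u i = 1 := by
    have h1 : ∑ i, u i = ∑ i, (Pi.single 0 1 : Fin 7 → ZMod 2) i +
        ∑ j, G j 0 * ∑ i, s j i := by
      simp only [u, Pi.add_apply, sum_add_distrib, Finset.sum_apply, Pi.smul_apply, smul_eq_mul]
      congr 1
      rw [sum_comm]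
      exact sum_congr rfl fun j _ => by rw [mul_sum]
    rw [h1]
    have h2 : ∀ j, ∑ i, s j i = 0 := by
      intro j
      rw [sum_eq_hw, hs2]
      decide
    simp [h2]
  rw [sum_eq_hw] at hpar
  by_cases hu : u = 0
  · rw [hu] at hpar
    simp [hw] at hpar
  · rw [hdual u hu hGu] at hpar
    revert hpar
    decide

/-- A binary `(8, 6, 6, 6, 6)`-PIR code of length `15` exists, but no binary `(3, 3, 3, 3)`-PIR code
of length `7 = 15 - 8` exists. -/
theorem result : HasPIR (ZMod 2) 15 ![8, 6, 6, 6, 6] ∧ ¬ HasPIR (ZMod 2) 7 ![3, 3, 3, 3] := by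
  refine ⟨⟨G15, pir15⟩, ?_⟩
  have : (![3, 3, 3, 3] : Fin 4 → ℕ) = fun _ => 3 := by
    funext j; fin_cases j <;> rfl
  rw [this]
  exact no7

end Pool.Agent.Results.MP_f85992_lc.ResidualFails
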